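import Pool.Agent.V8H38.EV.Pick

/-!
# Random classes: many of them contain many pairs
-/

namespace Pool.Agent.V8H38.EV

open Finset

variable {v M κ G : ℕ}

theorem cnt_le {C : Type} [Fintype C] [DecidableEq C] [Nonempty C] {m : ℕ} (u : Fin m → Fin v)
    (hu : Function.Injective u) (c : Fin m → C) (S : Finset (Fin v → C))
    (hS : ∀ χ ∈ S, ∀ j, χ (u j) = c j) :
    (S.card : ℝ) ≤ (Fintype.card C : ℝ) ^ v * (1 / (Fintype.card C : ℝ)) ^ m := by
  classical
  have hK : (0:ℝ) < Fintype.card C := by exact_mod_cast Fintype.card_pos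
  have h1 := card_fix u hu c
  have h2 : S.card ≤ (Finset.univ.filter fun χ : Fin v → C => ∀ j, χ (u j) = c j).card :=
    Finset.card_le_card fun χ hχ => Finset.mem_filter.2 ⟨Finset.mem_univ _, hS χ hχ⟩
  have h3 : S.card * Fintype.card C ^ m ≤ Fintype.card C ^ v := by
    rw [← h1]
    exact Nat.mul_le_mul_right _ h2
  rw [one_div, inv_pow, ← div_eq_mul_inv, le_div_iff₀ (by positivity)]
  exact_mod_cast h3

/-- the pair `e` is in the class `g` -/
def ev (g : Fin G) (e : Fin v × Fin v) (χ : Fin v → Fin G × Bool) : Prop :=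
  χ e.1 = (g, false) ∧ χ e.2 = (g, true)

instance (g : Fin G) (e : Fin v × Fin v) : DecidablePred (ev g e) :=
  fun _ => inferInstanceAs (Decidable (_ ∧ _))

theorem cls_eq (Q : Finset (Fin v × Fin v)) (χ : Fin v → Fin G × Bool) (g : Fin G) :
    ((cls Q χ g).card : ℝ) = ∑ e ∈ Q, if ev g e χ then (1:ℝ) else 0 := by
  unfold cls
  rw [Finset.card_filter]
  push_cast
  rfl

theorem sum_one (hG : 0 < G) (Q : Finset (Fin v × Fin v)) (hQ : ∀ e ∈ Q, e.1 < e.2)
    (g : Fin G) : ∑ χ : Fin v → Fin G × Bool, ((cls Q χ g).card : ℝ) =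
      Q.card * ((((2 * G : ℕ) : ℝ)) ^ v * (1 / ((2 * G : ℕ) : ℝ)) ^ 2) := by
  classical
  have hC : Fintype.card (Fin G × Bool) = 2 * G := by
    rw [Fintype.card_prod, Fintype.card_fin, Fintype.card_bool, mul_comm]
  simp only [cls_eq]
  rw [Finset.sum_comm]
  have h1 : ∀ e ∈ Q, ∑ χ : Fin v → Fin G × Bool, (if ev g e χ then (1:ℝ) else 0) =
      (((2 * G : ℕ) : ℝ)) ^ v * (1 / ((2 * G : ℕ) : ℝ)) ^ 2 := by
    intro e he
    have hne : e.1 ≠ e.2 := (hQ e he).ne
    have hinj : Function.Injective ![e.1, e.2] := by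
      intro i j hij
      fin_cases i <;> fin_cases j <;> simp_all
    have h2 := card_fix (C := Fin G × Bool) ![e.1, e.2] hinj ![(g, false), (g, true)]
    rw [hC] at h2
    have h3 : (Finset.univ.filter fun χ : Fin v → Fin G × Bool =>
        ∀ j, χ (![e.1, e.2] j) = ![(g, false), (g, true)] j) =
        Finset.univ.filter fun χ => ev g e χ := by
      ext χ
      simp only [Finset.mem_filter, Finset.mem_univ, true_and, Fin.forall_fin_two]
      rfl
    rw [h3] at h2
    have hG' : (0:ℝ) < ((2 * G : ℕ) : ℝ) := by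
      have : 0 < 2 * G := by omega
      exact_mod_cast this
    rw [Finset.sum_boole, one_div, inv_pow, ← div_eq_mul_inv, eq_div_iff (by positivity)]
    exact_mod_cast h2
  rw [Finset.sum_congr rfl h1, Finset.sum_const, nsmul_eq_mul]

theorem pair_le (hG : 0 < G) (g : Fin G) (e f : Fin v × Fin v) (he : e.1 < e.2)
    (hf : f.1 < f.2) :
    ∑ χ : Fin v → Fin G × Bool, ((if ev g e χ then (1:ℝ) else 0) * if ev g f χ then (1:ℝ) else 0) ≤
      (((2 * G : ℕ) : ℝ)) ^ v * ((1 / ((2 * G : ℕ) : ℝ)) ^ 4 +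
        (if f.1 = e.1 then (1 / ((2 * G : ℕ) : ℝ)) ^ 3 else 0) +
        (if f.2 = e.2 then (1 / ((2 * G : ℕ) : ℝ)) ^ 3 else 0) +
        (if f = e then (1 / ((2 * G : ℕ) : ℝ)) ^ 2 else 0)) := by
  classical
  have hC : Fintype.card (Fin G × Bool) = 2 * G := by
    rw [Fintype.card_prod, Fintype.card_fin, Fintype.card_bool, mul_comm]
  have : Nonempty (Fin G) := ⟨⟨0, hG⟩⟩
  have h1 : ∑ χ : Fin v → Fin G × Bool,
      ((if ev g e χ then (1:ℝ) else 0) * if ev g f χ then (1:ℝ) else 0) =
      ((Finset.univ.filter fun χ : Fin v → Fin G × Bool => ev g e χ ∧ ev g f χ).card : ℝ) := by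
    rw [Finset.card_filter]
    push_cast
    refine Finset.sum_congr rfl fun χ _ => ?_
    by_cases h1 : ev g e χ <;> by_cases h2 : ev g f χ <;> simp [h1, h2]
  rw [h1]
  set S := Finset.univ.filter fun χ : Fin v → Fin G × Bool => ev g e χ ∧ ev g f χ with hS
  have hmem : ∀ χ ∈ S, (χ e.1 = (g, false) ∧ χ e.2 = (g, true)) ∧
      (χ f.1 = (g, false) ∧ χ f.2 = (g, true)) := by
    intro χ hχ
    rw [hS, Finset.mem_filter] at hχ
    exact hχ.2
  set p : ℝ := 1 / ((2 * G : ℕ) : ℝ) with hp
  have hp0 : 0 ≤ p := by positivity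
  set N : ℝ := (((2 * G : ℕ) : ℝ)) ^ v with hN
  have hN0 : 0 ≤ N := by positivity
  have key : ∀ {m : ℕ} (u : Fin m → Fin v) (hu : Function.Injective u) (c : Fin m → Fin G × Bool)
      (hS : ∀ χ ∈ S, ∀ j, χ (u j) = c j), (S.card : ℝ) ≤ N * p ^ m := by
    intro m u hu c hS
    have := cnt_le u hu c S hS
    rw [hC] at this
    exact this
  have hp2 : 0 ≤ p ^ 2 := by positivity
  have hp3 : 0 ≤ p ^ 3 := by positivity
  have hp4 : 0 ≤ p ^ 4 := by positivity
  by_cases hfe : f = e
  · subst hfe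
    have hinj : Function.Injective ![f.1, f.2] := by
      have hne : f.1 ≠ f.2 := he.ne
      intro i j hij
      fin_cases i <;> fin_cases j <;> simp_all
    have h2 := key ![f.1, f.2] hinj ![(g, false), (g, true)] (by
      intro χ hχ
      rw [Fin.forall_fin_two]
      exact (hmem χ hχ).1)
    refine h2.trans (mul_le_mul_of_nonneg_left ?_ hN0)
    simp only [if_true]
    linarith
  · rw [if_neg hfe]
    by_cases h3 : f.1 = e.1
    · have h4 : f.2 ≠ e.2 := fun h => hfe (Prod.ext h3 h)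
      have hinj : Function.Injective ![e.1, e.2, f.2] := by
        have hne : e.1 ≠ e.2 := he.ne
        have hne2 : e.1 ≠ f.2 := by rw [← h3]; exact hf.ne
        intro i j hij
        fin_cases i <;> fin_cases j <;> simp_all
      have h2 := key ![e.1, e.2, f.2] hinj ![(g, false), (g, true), (g, true)] (by
        intro χ hχ j
        have := hmem χ hχ
        fin_cases j
        · exact this.1.1
        · exact this.1.2
        · exact this.2.2)
      refine h2.trans (mul_le_mul_of_nonneg_left ?_ hN0)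
      rw [if_pos h3, if_neg h4]
      linarith
    · rw [if_neg h3]
      by_cases h4 : f.2 = e.2
      · have hinj : Function.Injective ![e.1, f.1, e.2] := by
          have hne : e.1 ≠ e.2 := he.ne
          have hne2 : f.1 ≠ e.2 := by rw [← h4]; exact hf.ne
          intro i j hij
          fin_cases i <;> fin_cases j <;> simp_all
        have h2 := key ![e.1, f.1, e.2] hinj ![(g, false), (g, false), (g, true)] (by
          intro χ hχ j
          have := hmem χ hχ
          fin_cases j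
          · exact this.1.1
          · exact this.2.1
          · exact this.1.2)
        refine h2.trans (mul_le_mul_of_nonneg_left ?_ hN0)
        rw [if_pos h4]
        linarith
      · rw [if_neg h4]
        by_cases h5 : e.1 = f.2 ∨ e.2 = f.1
        · have h6 : S = ∅ := by
            apply Finset.eq_empty_of_forall_notMem
            intro χ hχ
            have := hmem χ hχ
            rcases h5 with h5 | h5
            · have h7 := this.1.1
              rw [h5, this.2.2] at h7
              simp at h7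
            · have h7 := this.1.2
              rw [h5, this.2.1] at h7
              simp at h7
          rw [h6]
          simp only [Finset.card_empty, Nat.cast_zero]
          positivity
        · push Not at h5
          have hinj : Function.Injective ![e.1, e.2, f.1, f.2] := by
            have hne : e.1 ≠ e.2 := he.ne
            have hne2 : f.1 ≠ f.2 := hf.ne
            have a1 := h5.1
            have a2 := h5.2
            intro i j hij
            fin_cases i <;> fin_cases j <;> simp_all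
          have h2 := key ![e.1, e.2, f.1, f.2] hinj
            ![(g, false), (g, true), (g, false), (g, true)] (by
            intro χ hχ j
            have := hmem χ hχ
            fin_cases j
            · exact this.1.1
            · exact this.1.2
            · exact this.2.1
            · exact this.2.2)
          refine h2.trans (mul_le_mul_of_nonneg_left ?_ hN0)
          linarith

theorem sum_sq (hG : 0 < G) (Q : Finset (Fin v × Fin v)) (hQ : ∀ e ∈ Q, e.1 < e.2) (Δ : ℕ)
    (h1 : ∀ a, (Q.filter fun e => e.1 = a).card ≤ Δ)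
    (h2 : ∀ a, (Q.filter fun e => e.2 = a).card ≤ Δ) (g : Fin G) :
    ∑ χ : Fin v → Fin G × Bool, ((cls Q χ g).card : ℝ) ^ 2 ≤
      (((2 * G : ℕ) : ℝ)) ^ v * ((Q.card : ℝ) ^ 2 * (1 / ((2 * G : ℕ) : ℝ)) ^ 4 +
        2 * Δ * Q.card * (1 / ((2 * G : ℕ) : ℝ)) ^ 3 +
        Q.card * (1 / ((2 * G : ℕ) : ℝ)) ^ 2) := by
  classical
  set p : ℝ := 1 / ((2 * G : ℕ) : ℝ) with hp
  have hp0 : 0 ≤ p := by positivity
  set N : ℝ := (((2 * G : ℕ) : ℝ)) ^ v with hN
  have hN0 : 0 ≤ N := by positivity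
  have e1 : ∀ χ : Fin v → Fin G × Bool, ((cls Q χ g).card : ℝ) ^ 2 =
      ∑ e ∈ Q, ∑ f ∈ Q, (if ev g e χ then (1:ℝ) else 0) * if ev g f χ then (1:ℝ) else 0 := by
    intro χ
    rw [sq, cls_eq, Finset.sum_mul_sum]
  rw [Finset.sum_congr rfl fun χ _ => e1 χ, Finset.sum_comm]
  have e2 : ∀ e ∈ Q, ∑ χ : Fin v → Fin G × Bool, ∑ f ∈ Q,
      ((if ev g e χ then (1:ℝ) else 0) * if ev g f χ then (1:ℝ) else 0) ≤
      N * (Q.card * p ^ 4 + 2 * Δ * p ^ 3 + p ^ 2) := by
    intro e he
    rw [Finset.sum_comm]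
    refine (Finset.sum_le_sum fun f hf => pair_le hG g e f (hQ e he) (hQ f hf)).trans ?_
    rw [← Finset.mul_sum]
    refine mul_le_mul_of_nonneg_left ?_ hN0
    rw [Finset.sum_add_distrib, Finset.sum_add_distrib, Finset.sum_add_distrib,
      Finset.sum_const, nsmul_eq_mul, ← Finset.sum_filter, ← Finset.sum_filter,
      ← Finset.sum_filter, Finset.sum_const, Finset.sum_const, Finset.sum_const,
      nsmul_eq_mul, nsmul_eq_mul, nsmul_eq_mul]
    have a1 : (((Q.filter fun f => f.1 = e.1).card : ℕ) : ℝ) ≤ Δ := by exact_mod_cast h1 e.1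
    have a2 : (((Q.filter fun f => f.2 = e.2).card : ℕ) : ℝ) ≤ Δ := by exact_mod_cast h2 e.2
    have a3 : (((Q.filter fun f => f = e).card : ℕ) : ℝ) ≤ 1 := by
      have : (Q.filter fun f => f = e).card ≤ 1 := by
        rw [Finset.card_le_one]
        intro x hx y hy
        rw [Finset.mem_filter] at hx hy
        rw [hx.2, hy.2]
      exact_mod_cast this
    have hp2 : 0 ≤ p ^ 2 := by positivity
    have hp3 : 0 ≤ p ^ 3 := by positivity
    have b1 := mul_le_mul_of_nonneg_right a1 hp3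
    have b2 := mul_le_mul_of_nonneg_right a2 hp3
    have b3 := mul_le_mul_of_nonneg_right a3 hp2
    linarith
  refine (Finset.sum_le_sum e2).trans ?_
  rw [Finset.sum_const, nsmul_eq_mul]
  refine le_of_eq ?_
  ring

/-- **Many good classes.** -/
theorem exists_good (hM : 1 ≤ M) (q : ℕ) (hq : 1 ≤ q) (Q : Finset (Fin v × Fin v))
    (hQ : ∀ e ∈ Q, e.1 < e.2)
    (h1 : ∀ a, (Q.filter fun e => e.1 = a).card ≤ M * q)
    (h2 : ∀ a, (Q.filter fun e => e.2 = a).card ≤ M * q)
    (h : 144 * (M ^ 2 * q) ≤ Q.card) :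
    ∃ χ : Fin v → Fin (3 * M) × Bool,
      M ≤ (Finset.univ.filter fun g : Fin (3 * M) => q ≤ (cls Q χ g).card).card := by
  classical
  have hG : 0 < 3 * M := by omega
  set K : ℝ := ((2 * (3 * M) : ℕ) : ℝ) with hK
  have hK0 : 0 < K := by
    have : 0 < 2 * (3 * M) := by omega
    rw [hK]
    exact_mod_cast this
  have hKM : K = 6 * M := by rw [hK]; push_cast; ring
  have hM0 : (0:ℝ) < M := by exact_mod_cast hM
  set t : ℝ := (Q.card : ℝ) with ht
  set p : ℝ := 1 / K with hp
  set N : ℝ := K ^ v with hN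
  have hN0 : 0 < N := by positivity
  have hp0 : 0 < p := by positivity
  set m : ℝ := t * p ^ 2 with hm
  have htq : 144 * ((M:ℝ) ^ 2 * q) ≤ t := by rw [ht]; exact_mod_cast h
  have hm4 : 4 * (q:ℝ) ≤ m := by
    have e1 : m = t / (36 * (M:ℝ) ^ 2) := by
      rw [hm, hp, hKM]
      field_simp
      norm_num
    rw [e1, le_div_iff₀ (by positivity)]
    nlinarith
  have hq1 : (1:ℝ) ≤ q := by exact_mod_cast hq
  have hm0 : 0 < m := by linarith
  -- the sum of all classes
  have S1 : ∑ χ : Fin v → Fin (3 * M) × Bool, ∑ g : Fin (3 * M), ((cls Q χ g).card : ℝ) =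
      3 * M * (N * m) := by
    rw [Finset.sum_comm, Finset.sum_congr rfl fun g _ => sum_one hG Q hQ g, Finset.sum_const,
      Finset.card_univ, Fintype.card_fin, nsmul_eq_mul]
    push_cast
    rw [hm]
    simp only [hN, hp, hK, ht]
    push_cast
    ring
  have S2 : ∑ χ : Fin v → Fin (3 * M) × Bool, ∑ g : Fin (3 * M), ((cls Q χ g).card : ℝ) ^ 2 ≤
      3 * M * (N * (m ^ 2 + q / 3 * m + m)) := by
    rw [Finset.sum_comm]
    refine (Finset.sum_le_sum fun g _ => sum_sq hG Q hQ (M * q) h1 h2 g).trans ?_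
    rw [Finset.sum_const, Finset.card_univ, Fintype.card_fin, nsmul_eq_mul]
    refine le_of_eq ?_
    rw [← hK, ← hp, ← hN, ← ht]
    have e1 : t ^ 2 * p ^ 4 = m ^ 2 := by rw [hm]; ring
    have e2 : 2 * ((M * q : ℕ) : ℝ) * t * p ^ 3 = q / 3 * m := by
      rw [hm, hp, hKM]
      push_cast
      field_simp
      ring
    rw [e1, e2, ← hm]
    push_cast
    ring
  -- a good colouring
  obtain ⟨χ, hχ⟩ : ∃ χ : Fin v → Fin (3 * M) × Bool, 3 * M * m / 2 ≤
      ∑ g : Fin (3 * M), (((cls Q χ g).card : ℝ) - ((cls Q χ g).card : ℝ) ^ 2 / (3 * m)) := by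
    by_contra hcon
    push Not at hcon
    have i0 : Nonempty (Fin v → Fin (3 * M) × Bool) := ⟨fun _ => (⟨0, hG⟩, false)⟩
    have e1 : ∑ χ : Fin v → Fin (3 * M) × Bool,
        ∑ g : Fin (3 * M), (((cls Q χ g).card : ℝ) - ((cls Q χ g).card : ℝ) ^ 2 / (3 * m)) <
        ∑ χ : Fin v → Fin (3 * M) × Bool, 3 * M * m / 2 :=
      Finset.sum_lt_sum_of_nonempty Finset.univ_nonempty fun χ _ => hcon χ
    have e2 : ∑ χ : Fin v → Fin (3 * M) × Bool,
        ∑ g : Fin (3 * M), (((cls Q χ g).card : ℝ) - ((cls Q χ g).card : ℝ) ^ 2 / (3 * m)) =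
        3 * M * (N * m) - (∑ χ : Fin v → Fin (3 * M) × Bool,
          ∑ g : Fin (3 * M), ((cls Q χ g).card : ℝ) ^ 2) / (3 * m) := by
      rw [← S1, Finset.sum_div, ← Finset.sum_sub_distrib]
      refine Finset.sum_congr rfl fun χ _ => ?_
      rw [Finset.sum_div, ← Finset.sum_sub_distrib]
    have hcard : ((Fintype.card (Fin v → Fin (3 * M) × Bool) : ℕ) : ℝ) = N := by
      rw [Fintype.card_fun, Fintype.card_prod, Fintype.card_fin, Fintype.card_bool,
        Fintype.card_fin, hN, hK]
      push_cast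
      congr 1
      ring
    rw [e2, Finset.sum_const, Finset.card_univ, nsmul_eq_mul, hcard] at e1
    have e3 : (∑ χ : Fin v → Fin (3 * M) × Bool,
          ∑ g : Fin (3 * M), ((cls Q χ g).card : ℝ) ^ 2) / (3 * m) ≤
        3 * M * (N * (m + q / 3 + 1)) / 3 := by
      rw [div_le_div_iff₀ (by positivity) (by norm_num)]
      refine (mul_le_mul_of_nonneg_right S2 (by norm_num)).trans (le_of_eq ?_)
      ring
    have e4 : 3 * (M:ℝ) * (N * (m + q / 3 + 1)) / 3 ≤ 3 * M * (N * (m / 2)) := by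
      have e5 : (m + q / 3 + 1) / 3 ≤ m / 2 := by linarith
      calc 3 * (M:ℝ) * (N * (m + q / 3 + 1)) / 3 = 3 * M * (N * ((m + q / 3 + 1) / 3)) := by ring
        _ ≤ 3 * M * (N * (m / 2)) := by gcongr
    nlinarith
  refine ⟨χ, ?_⟩
  set B := (Finset.univ.filter fun g : Fin (3 * M) => q ≤ (cls Q χ g).card) with hB
  have e1 : ∑ g : Fin (3 * M), (((cls Q χ g).card : ℝ) - ((cls Q χ g).card : ℝ) ^ 2 / (3 * m)) ≤
      ∑ g : Fin (3 * M), (m / 4 + if g ∈ B then 3 * m / 4 else 0) := by
    refine Finset.sum_le_sum fun g _ => ?_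
    set X : ℝ := ((cls Q χ g).card : ℝ) with hX
    have hX0 : 0 ≤ X := Nat.cast_nonneg _
    by_cases hg : g ∈ B
    · rw [if_pos hg]
      have e3 : X - X ^ 2 / (3 * m) ≤ 3 * m / 4 := by
        have : 3 * m / 4 - (X - X ^ 2 / (3 * m)) = (X - 3 * m / 2) ^ 2 / (3 * m) := by
          field_simp
          ring
        have h5 : 0 ≤ (X - 3 * m / 2) ^ 2 / (3 * m) := by positivity
        linarith
      linarith
    · rw [if_neg hg]
      have hlt : (cls Q χ g).card < q := by
        rw [hB, Finset.mem_filter] at hg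
        push Not at hg
        exact hg (Finset.mem_univ _)
      have hlt' : X ≤ q := by rw [hX]; exact_mod_cast hlt.le
      have h5 : 0 ≤ X ^ 2 / (3 * m) := by positivity
      linarith
  rw [Finset.sum_add_distrib, Finset.sum_const, Finset.card_univ, Fintype.card_fin,
    nsmul_eq_mul, Finset.sum_ite_mem, Finset.univ_inter, Finset.sum_const, nsmul_eq_mul] at e1
  push_cast at e1
  have e6 : (M:ℝ) ≤ B.card := by nlinarith
  exact_mod_cast e6

/-- **Every set of pairs contains a frame.** -/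
theorem exists_frame (hM : 1 ≤ M) (Q : Finset (Fin v × Fin v)) (hQ : ∀ e ∈ Q, e.1 < e.2)
    (h : 144 * (M ^ 2 * 4 ^ κ) ≤ Q.card) :
    ∃ F : Frame v M κ, Inside F Q ∧ F.Z.card ≤ 2 * (M * 4 ^ κ) ∧ Fintype.card F.J ≤ 2 * M := by
  classical
  by_cases h1 : ∃ s, M * 4 ^ κ ≤ (Q.filter fun e => e.1 = s).card
  · obtain ⟨s, hs⟩ := h1
    set L := (Q.filter fun e => e.1 = s).image Prod.snd with hL
    have hLc : M * 4 ^ κ ≤ L.card := by
      rw [hL, Finset.card_image_of_injOn]
      · exact hs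
      · intro e he f hf hef
        simp only [Finset.coe_filter, Set.mem_ofPred_eq] at he hf
        exact Prod.ext (he.2.trans hf.2.symm) hef
    have hmem : ∀ b ∈ L, (s, b) ∈ Q := by
      intro b hb
      obtain ⟨e, he, rfl⟩ := Finset.mem_image.1 hb
      rw [Finset.mem_filter] at he
      rw [← he.2]
      exact he.1
    obtain ⟨F, hF1, hF2, hF3⟩ := star_frame (κ := κ) hM s L (fun h => lt_irrefl _ (hQ _ (hmem s h)))
      hLc
    refine ⟨F, fun i c => Or.inl ?_, hF2, hF3⟩
    have h3 := hF1 i c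
    have h4 := hmem _ h3.2
    rw [h3.1]
    exact ⟨hQ _ h4, h4⟩
  by_cases h2 : ∃ s, M * 4 ^ κ ≤ (Q.filter fun e => e.2 = s).card
  · obtain ⟨s, hs⟩ := h2
    set L := (Q.filter fun e => e.2 = s).image Prod.fst with hL
    have hLc : M * 4 ^ κ ≤ L.card := by
      rw [hL, Finset.card_image_of_injOn]
      · exact hs
      · intro e he f hf hef
        simp only [Finset.coe_filter, Set.mem_ofPred_eq] at he hf
        exact Prod.ext hef (he.2.trans hf.2.symm)
    have hmem : ∀ b ∈ L, (b, s) ∈ Q := by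
      intro b hb
      obtain ⟨e, he, rfl⟩ := Finset.mem_image.1 hb
      rw [Finset.mem_filter] at he
      rw [← he.2]
      exact he.1
    obtain ⟨F, hF1, hF2, hF3⟩ := star_frame (κ := κ) hM s L (fun h => lt_irrefl _ (hQ _ (hmem s h)))
      hLc
    refine ⟨F, fun i c => Or.inr ?_, hF2, hF3⟩
    have h3 := hF1 i c
    have h4 := hmem _ h3.2
    rw [h3.1]
    exact ⟨hQ _ h4, h4⟩
  · push Not at h1 h2
    obtain ⟨χ, hχ⟩ := exists_good hM (4 ^ κ) (Nat.one_le_pow _ _ (by norm_num)) Q hQ
      (fun a => (h1 a).le) (fun a => (h2 a).le) h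
    set B := (Finset.univ.filter fun g : Fin (3 * M) => 4 ^ κ ≤ (cls Q χ g).card) with hB
    have hcard : Fintype.card (Fin M) ≤ Fintype.card {g // g ∈ B} := by
      rw [Fintype.card_fin, Fintype.card_coe]
      exact hχ
    obtain ⟨φ⟩ := Function.Embedding.nonempty_of_card_le hcard
    obtain ⟨F, hF1, hF2, hF3⟩ := class_frame (κ := κ) hM Q χ (fun i => (φ i : Fin (3 * M)))
      (fun i j hij => φ.injective (Subtype.ext hij)) (fun i => by
        exact (Finset.mem_filter.1 (φ i).2).2)
    exact ⟨F, fun i c => Or.inl ⟨hQ _ (hF1 i c), hF1 i c⟩, hF2, hF3⟩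

end Pool.Agent.V8H38.EV
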