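import Pool.Agent.V8H38.EV.Subst

/-!
# Every set of pairs of vertices contains a frame
-/

namespace Pool.Agent.V8H38.EV

open Finset

variable {v M κ : ℕ}

theorem card_Sy : Fintype.card (Sy κ) = 4 ^ κ := by
  rw [Fintype.card_fun, Fintype.card_prod, Fintype.card_bool, Fintype.card_fin, ZMod.card, pow_mul]
  norm_num

/-- a star contains a frame -/
theorem star_frame (hM : 1 ≤ M) (s : Fin v) (L : Finset (Fin v)) (hs : s ∉ L)
    (hL : M * 4 ^ κ ≤ L.card) : ∃ F : Frame v M κ, (∀ i c, F.a i c = s ∧ F.b i c ∈ L) ∧
      F.Z.card ≤ 2 * (M * 4 ^ κ) ∧ Fintype.card F.J ≤ 2 * M := by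
  classical
  have hcard : Fintype.card (Fin M × Sy κ) ≤ Fintype.card {x // x ∈ L} := by
    rw [Fintype.card_prod, card_Sy, Fintype.card_fin, Fintype.card_coe]
    exact hL
  obtain ⟨ψ⟩ := Function.Embedding.nonempty_of_card_le hcard
  have i0 : Fin M := ⟨0, hM⟩
  let part : Fin v → Option (Fin M) := fun z =>
    if z = s then none
    else if h : ∃ x, ((ψ x : {x // x ∈ L}) : Fin v) = z then some h.choose.1 else some i0
  have hps : part s = none := by simp only [part, if_pos]
  have hpb : ∀ i c, part (ψ (i, c) : {x // x ∈ L}) = some i := by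
    intro i c
    have h1 : ((ψ (i, c) : {x // x ∈ L}) : Fin v) ≠ s := by
      intro h
      apply hs
      rw [← h]
      exact (ψ (i, c)).2
    have h2 : ∃ x, ((ψ x : {x // x ∈ L}) : Fin v) = (ψ (i, c) : {x // x ∈ L}) := ⟨(i, c), rfl⟩
    simp only [part]
    rw [if_neg h1, dif_pos h2]
    have h3 := ψ.injective (Subtype.ext h2.choose_spec)
    rw [h3]
  let F : Frame v M κ :=
    { J := Option (Fin M)
      fJ := inferInstance
      dJ := inferInstance
      Z := insert s (Finset.univ.image fun x => ((ψ x : {x // x ∈ L}) : Fin v))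
      part := part
      a := fun _ _ => s
      b := fun i c => (ψ (i, c) : {x // x ∈ L})
      jA := fun _ => none
      jB := fun i => some i
      aZ := fun _ _ => Finset.mem_insert_self _ _
      bZ := fun i c => Finset.mem_insert_of_mem (Finset.mem_image_of_mem _ (Finset.mem_univ _))
      pa := fun _ _ => hps
      pb := hpb
      hAB := fun _ _ => by simp
      hB := Option.some_injective _
      cov := by
        rintro (_ | j)
        · exact Or.inl ⟨i0, rfl⟩
        · exact Or.inr ⟨j, rfl⟩
      cons := fun _ _ _ _ _ _ => rfl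
      inj := by
        intro i c c' _ h
        have := ψ.injective (Subtype.ext h)
        exact (Prod.mk.inj this).2 }
  refine ⟨F, fun i c => ⟨rfl, (ψ (i, c)).2⟩, ?_, ?_⟩
  · have h1 : F.Z.card ≤ (Finset.univ.image fun x => ((ψ x : {x // x ∈ L}) : Fin v)).card + 1 :=
      Finset.card_insert_le _ _
    have h2 : (Finset.univ.image fun x => ((ψ x : {x // x ∈ L}) : Fin v)).card ≤ M * 4 ^ κ := by
      refine Finset.card_image_le.trans ?_
      rw [Finset.card_univ, Fintype.card_prod, card_Sy, Fintype.card_fin]
    have h3 : 1 ≤ M * 4 ^ κ := Nat.mul_pos hM (by positivity)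
    omega
  · have : Fintype.card F.J = M + 1 := by
      show Fintype.card (Option (Fin M)) = M + 1
      rw [Fintype.card_option, Fintype.card_fin]
    omega

/-- the pairs of a class -/
def cls {G : ℕ} (Q : Finset (Fin v × Fin v)) (χ : Fin v → Fin G × Bool) (g : Fin G) :
    Finset (Fin v × Fin v) :=
  Q.filter fun e => χ e.1 = (g, false) ∧ χ e.2 = (g, true)

/-- good classes contain a frame -/
theorem class_frame (hM : 1 ≤ M) {G : ℕ} (Q : Finset (Fin v × Fin v))
    (χ : Fin v → Fin G × Bool) (g : Fin M → Fin G) (hg : Function.Injective g)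
    (h : ∀ i, 4 ^ κ ≤ (cls Q χ (g i)).card) :
    ∃ F : Frame v M κ, (∀ i c, (F.a i c, F.b i c) ∈ Q) ∧
      F.Z.card ≤ 2 * (M * 4 ^ κ) ∧ Fintype.card F.J ≤ 2 * M := by
  classical
  have hex : ∀ i, Nonempty (Sy κ ↪ {x // x ∈ cls Q χ (g i)}) := by
    intro i
    refine Function.Embedding.nonempty_of_card_le ?_
    rw [card_Sy, Fintype.card_coe]
    exact h i
  let φ : ∀ i, Sy κ ↪ {x // x ∈ cls Q χ (g i)} := fun i => (hex i).some
  have hφ : ∀ i c, ((φ i c : {x // x ∈ cls Q χ (g i)}) : Fin v × Fin v) ∈ Q ∧
      χ ((φ i c : {x // x ∈ cls Q χ (g i)}) : Fin v × Fin v).1 = (g i, false) ∧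
      χ ((φ i c : {x // x ∈ cls Q χ (g i)}) : Fin v × Fin v).2 = (g i, true) := by
    intro i c
    have := (φ i c).2
    unfold cls at this
    rw [Finset.mem_filter] at this
    exact this
  have i0 : Fin M := ⟨0, hM⟩
  let part : Fin v → Fin M × Bool := fun z =>
    if h : ∃ i, g i = (χ z).1 then (h.choose, (χ z).2) else (i0, false)
  have hpart : ∀ z i s, χ z = (g i, s) → part z = (i, s) := by
    intro z i s hz
    have h2 : ∃ i', g i' = (χ z).1 := ⟨i, by rw [hz]⟩
    simp only [part]
    rw [dif_pos h2]
    have h3 : h2.choose = i := by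
      apply hg
      rw [h2.choose_spec, hz]
    rw [h3, hz]
  let F : Frame v M κ :=
    { J := Fin M × Bool
      fJ := inferInstance
      dJ := inferInstance
      Z := (Finset.univ.image fun x : Fin M × Sy κ =>
          ((φ x.1 x.2 : {y // y ∈ cls Q χ (g x.1)}) : Fin v × Fin v).1) ∪
        (Finset.univ.image fun x : Fin M × Sy κ =>
          ((φ x.1 x.2 : {y // y ∈ cls Q χ (g x.1)}) : Fin v × Fin v).2)
      part := part
      a := fun i c => ((φ i c : {x // x ∈ cls Q χ (g i)}) : Fin v × Fin v).1
      b := fun i c => ((φ i c : {x // x ∈ cls Q χ (g i)}) : Fin v × Fin v).2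
      jA := fun i => (i, false)
      jB := fun i => (i, true)
      aZ := fun i c => Finset.mem_union_left _
        (Finset.mem_image.2 ⟨(i, c), Finset.mem_univ _, rfl⟩)
      bZ := fun i c => Finset.mem_union_right _
        (Finset.mem_image.2 ⟨(i, c), Finset.mem_univ _, rfl⟩)
      pa := fun i c => hpart _ _ _ (hφ i c).2.1
      pb := fun i c => hpart _ _ _ (hφ i c).2.2
      hAB := fun _ _ => by simp
      hB := fun i i' h => (Prod.mk.inj h).1
      cov := by
        rintro ⟨j, s⟩
        cases s
        · exact Or.inl ⟨j, rfl⟩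
        · exact Or.inr ⟨j, rfl⟩
      cons := fun i i' hne h => absurd (Prod.mk.inj h).1 hne
      inj := by
        intro i c c' h1 h2
        exact (φ i).injective (Subtype.ext (Prod.ext h1 h2)) }
  refine ⟨F, fun i c => (hφ i c).1, ?_, ?_⟩
  · have h0 : (Finset.univ : Finset (Fin M × Sy κ)).card = M * 4 ^ κ := by
      rw [Finset.card_univ, Fintype.card_prod, card_Sy, Fintype.card_fin]
    refine (Finset.card_union_le _ _).trans ?_
    have h1 := Finset.card_image_le (s := (Finset.univ : Finset (Fin M × Sy κ)))
      (f := fun x : Fin M × Sy κ => ((φ x.1 x.2 : {y // y ∈ cls Q χ (g x.1)}) : Fin v × Fin v).1)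
    have h2 := Finset.card_image_le (s := (Finset.univ : Finset (Fin M × Sy κ)))
      (f := fun x : Fin M × Sy κ => ((φ x.1 x.2 : {y // y ∈ cls Q χ (g x.1)}) : Fin v × Fin v).2)
    omega
  · have : Fintype.card F.J = M * 2 := by
      show Fintype.card (Fin M × Bool) = M * 2
      rw [Fintype.card_prod, Fintype.card_fin, Fintype.card_bool]
    omega

/-- the number of functions with given values at `m` points -/
theorem card_fix {C : Type} [Fintype C] [DecidableEq C] {m : ℕ} (u : Fin m → Fin v)
    (hu : Function.Injective u) (c : Fin m → C) :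
    (Finset.univ.filter fun χ : Fin v → C => ∀ j, χ (u j) = c j).card * Fintype.card C ^ m =
      Fintype.card C ^ v := by
  classical
  have h1 : (Finset.univ.filter fun χ : Fin v → C => ∀ j, χ (u j) = c j) =
      Fintype.piFinset fun x : Fin v => if h : ∃ j, u j = x then {c h.choose}
        else (Finset.univ : Finset C) := by
    ext χ
    rw [Finset.mem_filter, Fintype.mem_piFinset]
    simp only [Finset.mem_univ, true_and]
    constructor
    · intro h x
      split_ifs with hx
      · rw [Finset.mem_singleton, ← h, hx.choose_spec]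
      · exact Finset.mem_univ _
    · intro h j
      have h2 := h (u j)
      have hx : ∃ j', u j' = u j := ⟨j, rfl⟩
      rw [dif_pos hx, Finset.mem_singleton] at h2
      rw [h2, hu hx.choose_spec]
  rw [h1, Fintype.card_piFinset]
  have h2 : ∀ x : Fin v, (if h : ∃ j, u j = x then {c h.choose}
        else (Finset.univ : Finset C)).card =
      if x ∈ Finset.univ.image u then 1 else Fintype.card C := by
    intro x
    by_cases hx : ∃ j, u j = x
    · rw [dif_pos hx, Finset.card_singleton, if_pos]
      obtain ⟨j, rfl⟩ := hx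
      exact Finset.mem_image_of_mem _ (Finset.mem_univ _)
    · rw [dif_neg hx, Finset.card_univ, if_neg]
      intro h
      obtain ⟨j, _, hj⟩ := Finset.mem_image.1 h
      exact hx ⟨j, hj⟩
  rw [Finset.prod_congr rfl fun x _ => h2 x, Finset.prod_ite, Finset.prod_const_one, one_mul,
    Finset.prod_const]
  have h3 : (Finset.univ.filter fun x : Fin v => x ∉ Finset.univ.image u) =
      (Finset.univ.image u)ᶜ := by
    ext x
    simp
  rw [h3, Finset.card_compl, Finset.card_image_of_injective _ hu, Finset.card_univ,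
    Fintype.card_fin, Fintype.card_fin, ← pow_add]
  congr 1
  have : m ≤ v := by
    have := Fintype.card_le_of_injective u hu
    simpa using this
  omega

end Pool.Agent.V8H38.EV
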